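import Pool.Agent.HDC.Main
import Pool.Agent.HDC.HAM
import Pool.Agent.HDC.ARC
import Pool.Agent.HDC.CYC2
import Pool.Agent.HDC.CYC3
import Pool.Agent.HDC.KLL
import Pool.Agent.HDC.KLR
import Pool.Agent.HDC.KLX
import Pool.Agent.HDC.KXX
import Pool.Agent.HDC.KEY
import Pool.Agent.HDC.WIN
import Pool.Agent.HDC.CNT
import Pool.Agent.HDC.FIN
import Pool.Agent.HDC.RUZ
import Pool.Agent.HDC.FANH
import Pool.Agent.HDC.FANE
import Pool.Agent.HDC.FAND
import Pool.Agent.HDC.LOW
import Pool.Agent.HDC.SING
import Pool.Agent.HDC.MARK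
import Pool.Agent.HDC.LOWA

/-!
# MP_838d6f_co: Hamiltonian graphs with all cycle lengths distinct

Let `h n` be the maximum number of edges of a Hamiltonian graph on `n` vertices without two distinct
cycles of the same length (Markström).  We determine the second order term:
`h n = n + (1 + o(1)) √n`, with `h n ≤ n + √n + 100 n^(1/4)` for all `n ≥ 3`.

Upper bound.  Fix a chord `r` of the Hamilton cycle.  For two other chords `c, c'` there is a cycle that
uses the chords `r, c, c'` and no other chord, or a cycle that uses the chords `c, c'` and has length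
`|u c - u c'| + 2`, where `u` is a function (depending on `r`) with values in `[0, n]`.  There are at most `n`
cycles, so the first case is rare for some `r`, and the values `u c` are a Sidon set up to `O(√n)` pairs;
the window argument of Erdős and Turán gives the bound.  Lower bound.  Fans of Singer difference sets
(both end points of the path are marks), with the prime number theorem.
-/

set_option autoImplicit false

namespace Pool.Agent.Results.MP_838d6f_co.HamiltonianDistinctCycleLengths

open Filter Topology Pool.Agent.HDC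

/-- No two distinct cycles of `G` have the same length: two cycles (closed walks) of the same
length have the same edges. -/
def DistinctCycleLengths {V : Type} (G : SimpleGraph V) : Prop :=
  ∀ (u v : V) (p : G.Walk u u) (q : G.Walk v v), p.IsCycle → q.IsCycle → p.length = q.length →
    ∀ e, e ∈ p.edges ↔ e ∈ q.edges

/-- The numbers of edges of the Hamiltonian graphs on `n` vertices with distinct cycle lengths. -/
def EdgeNumbers (n : ℕ) : Set ℕ :=
  {m | ∃ G : SimpleGraph (Fin n), G.IsHamiltonian ∧ DistinctCycleLengths G ∧ G.edgeSet.ncard = m}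

/-- Markström's function: the maximum number of edges of a Hamiltonian graph on `n` vertices with
distinct cycle lengths. -/
noncomputable def h (n : ℕ) : ℕ := sSup (EdgeNumbers n)

/-- **Asymptotics of Markström's function.** For `n ≥ 3` the maximum `h n` exists and
`n + √(n/8) - 2 ≤ h n ≤ n + √n + 100 n^(1/4)`; for infinitely many `n` it is at least `n + √n - 3`; and
`(h n - n) / √n` tends to `1`. -/
theorem result :
    (∀ n : ℕ, 3 ≤ n → IsGreatest (EdgeNumbers n) (h n) ∧
      (h n : ℝ) ≤ n + Real.sqrt n + 100 * (n : ℝ) ^ (1 / 4 : ℝ) ∧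
      (n : ℝ) + Real.sqrt (n / 8) - 2 ≤ h n) ∧
    (∀ N : ℕ, ∃ n : ℕ, N ≤ n ∧ (n : ℝ) + Real.sqrt n - 3 ≤ h n) ∧
    Tendsto (fun n : ℕ => ((h n : ℝ) - n) / Real.sqrt n) atTop (𝓝 1) := by
  have c2 : S_CYC2 := t_CYC2 t_ARC
  have c3 : S_CYC3 := t_CYC3 t_ARC
  have key : S_KEY := t_KEY (t_KLL c2 c3) (t_KLR c2) (t_KLX c3) (t_KXX c3)
  have cnt : S_CNT := t_CNT t_WIN key
  have low : S_LOW := t_LOW t_RUZ t_FANH t_FANE t_FAND
  have lowa : S_LOWA := t_LOWA (t_MARK t_SING) t_FANH t_FANE t_FAND
  have hE : ∀ n, HS n = EdgeNumbers n := fun n => rfl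
  have hg : ∀ n : ℕ, 3 ≤ n → IsGreatest (EdgeNumbers n) (h n) := fun n hn =>
    greatest t_HAM cnt t_FIN low n hn
  refine ⟨fun n hn => ⟨hg n hn, upper t_HAM cnt t_FIN n hn _ (hg n hn).1, ?_⟩, fun N => ?_,
    tends t_HAM cnt t_FIN low lowa⟩
  · obtain ⟨G, h1, h2, h3⟩ := low.2 n hn
    have h4 : G.edgeSet.ncard ≤ h n := (hg n hn).2 ⟨G, h1, h2, rfl⟩
    have h5 : (G.edgeSet.ncard : ℝ) ≤ (h n : ℝ) := by exact_mod_cast h4
    linarith
  · obtain ⟨n, hN, hn, G, h1, h2, h3⟩ := low.1 N
    have h4 : G.edgeSet.ncard ≤ h n := (hg n hn).2 ⟨G, h1, h2, rfl⟩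
    have h5 : (G.edgeSet.ncard : ℝ) ≤ (h n : ℝ) := by exact_mod_cast h4
    exact ⟨n, hN, by linarith⟩

end Pool.Agent.Results.MP_838d6f_co.HamiltonianDistinctCycleLengths
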